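import Pool.Agent.Run7.h987.SE.Iface

/-! # ORTH, SHIFT, MIX (project SE of helper987) -/

set_option autoImplicit false

open MeasureTheory Set
open scoped ENNReal symmDiff

noncomputable section

namespace Pool.Agent.Run7.h270.SE

open Pool.Agent.Run7.h987.SE

lemma walsh_meas {Γ : Type} (S : Finset Γ) : Measurable (walsh S : (Γ → Bool) → ℝ) := by
  unfold walsh
  refine Finset.measurable_prod _ fun s _ => ?_
  have h : MeasurableSet {x : Γ → Bool | x s = true} :=
    measurableSet_eq_fun (measurable_pi_apply s) measurable_const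
  exact Measurable.ite h measurable_const measurable_const

lemma walsh_abs {Γ : Type} (S : Finset Γ) (x : Γ → Bool) : |walsh S x| = 1 := by
  unfold walsh
  rw [Finset.abs_prod]
  refine Finset.prod_eq_one fun s _ => ?_
  split_ifs <;> norm_num

lemma walsh_sq {Γ : Type} (S : Finset Γ) (x : Γ → Bool) : walsh S x * walsh S x = 1 := by
  rw [← abs_mul_abs_self, walsh_abs, one_mul]

lemma int_bern (t : ℝ) (h0 : 0 ≤ t) (h1 : t ≤ 1) (f : Bool → ℝ) :
    ∫ b, f b ∂(bern t) = t * f true + (1 - t) * f false := by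
  unfold bern
  rw [integral_add_measure, integral_smul_measure, integral_smul_measure, integral_dirac,
    integral_dirac, ENNReal.toReal_ofReal h0, ENNReal.toReal_ofReal (by linarith)]
  · rfl
  · exact Integrable.smul_measure (integrable_dirac (by simp)) ENNReal.ofReal_ne_top
  · exact Integrable.smul_measure (integrable_dirac (by simp)) ENNReal.ofReal_ne_top

lemma int_walsh {Γ : Type} (S : Finset Γ) (hS : S.Nonempty) : ∫ x, walsh S x ∂(nu Γ) = 0 := by
  have e1 : ∀ x : Γ → Bool, walsh S x =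
      (fun z : (S → Bool) => ∏ i : S, (if z i then (1 : ℝ) else -1)) (S.restrict x) := by
    intro x
    simp only [walsh, Finset.restrict]
    exact (Finset.prod_coe_sort S (fun s => if x s then (1 : ℝ) else -1)).symm
  have e2 : ∫ x, walsh S x ∂(nu Γ) = ∫ z : (S → Bool), ∏ i : S, (if z i then (1 : ℝ) else -1)
      ∂(Measure.pi fun _ : S => bern (1 / 2)) := by
    rw [integral_congr_ae (Filter.Eventually.of_forall e1)]
    refine integral_restrict_infinitePi (μ := fun _ : Γ => bern (1 / 2)) (s := S)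
      (f := fun z : (S → Bool) => ∏ i : S, (if z i then (1 : ℝ) else -1)) ?_
    exact (measurable_of_countable _).aestronglyMeasurable
  rw [e2, integral_fintype_prod_eq_prod (fun (_ : S) (b : Bool) => if b then (1 : ℝ) else -1)]
  obtain ⟨s, hs⟩ := hS
  refine Finset.prod_eq_zero (Finset.mem_univ ⟨s, hs⟩) ?_
  rw [int_bern (1 / 2) (by norm_num) (by norm_num)]
  norm_num

lemma walsh_mul {Γ : Type} [DecidableEq Γ] (S T : Finset Γ) (x : Γ → Bool) :
    walsh S x * walsh T x = walsh (S ∆ T) x := by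
  have h1 : walsh S x = walsh (S \ T) x * walsh (S ∩ T) x := by
    unfold walsh
    rw [← Finset.prod_union (Finset.disjoint_sdiff_inter S T), Finset.sdiff_union_inter]
  have h2 : walsh T x = walsh (T \ S) x * walsh (S ∩ T) x := by
    unfold walsh
    rw [Finset.inter_comm, ← Finset.prod_union (Finset.disjoint_sdiff_inter T S),
      Finset.sdiff_union_inter]
  have h3 : walsh (S ∆ T) x = walsh (S \ T) x * walsh (T \ S) x := by
    unfold walsh
    rw [← Finset.prod_union]
    · rfl
    · exact Finset.disjoint_left.mpr fun a ha hb => by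
        rw [Finset.mem_sdiff] at ha hb
        exact ha.2 hb.1
  rw [h1, h2, h3]
  linear_combination (walsh (S \ T) x * walsh (T \ S) x) * walsh_sq (S ∩ T) x

theorem t_ORTH : P_ORTH := by
  intro Γ _ S T
  refine ⟨walsh_meas S, fun x => (walsh_abs S x).le, ?_⟩
  simp only [walsh_mul]
  split_ifs with h
  · rw [h, symmDiff_self]
    have : ∀ x : Γ → Bool, walsh (⊥ : Finset Γ) x = 1 := fun x => by
      unfold walsh; exact Finset.prod_empty
    simp only [this]
    simp
  · refine int_walsh _ ?_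
    rw [Finset.nonempty_iff_ne_empty]
    intro h0
    exact h (symmDiff_eq_bot.mp h0)

lemma bern_half (b : Bool) : bern (1 / 2) {b} = 1 / 2 := by
  unfold bern
  have e : ENNReal.ofReal (1 / 2) = 1 / 2 := by
    rw [ENNReal.ofReal_div_of_pos (by norm_num)]; simp
  have e' : ENNReal.ofReal (1 - 1 / 2) = 1 / 2 := by
    rw [show (1 - 1 / 2 : ℝ) = 1 / 2 by norm_num]; exact e
  rw [Measure.add_apply, Measure.smul_apply, Measure.smul_apply, e, e']
  cases b <;> simp

lemma shift_meas {Γ : Type} [Group Γ] (g : Γ) : Measurable (shift g : (Γ → Bool) → (Γ → Bool)) :=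
  measurable_pi_lambda _ fun h => measurable_pi_apply (g⁻¹ * h)

lemma shift_map {Γ : Type} [Group Γ] (g : Γ) : (nu Γ).map (shift g) = nu Γ := by
  classical
  unfold nu
  refine Measure.eq_infinitePi _ fun s t ht => ?_
  rw [Measure.map_apply (shift_meas g) (MeasurableSet.pi s.countable_toSet fun i _ => ht i)]
  have e : shift g ⁻¹' (Set.pi s t) =
      Set.pi ((s.image fun h => g⁻¹ * h : Finset Γ) : Set Γ) (fun j => t (g * j)) := by
    ext x
    simp only [Set.mem_preimage, Set.mem_pi, Finset.coe_image, Set.mem_image,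
      forall_exists_index, and_imp, forall_apply_eq_imp_iff₂, mul_inv_cancel_left, shift]
  rw [e, Measure.infinitePi_pi _ (fun i _ => ht _), Finset.prod_image]
  · simp
  · intro a _ b _ h; exact mul_left_cancel h

lemma nu_point {Γ : Type} (hinf : Infinite Γ) (x : Γ → Bool) : nu Γ {x} = 0 := by
  have key : ∀ n : ℕ, nu Γ {x} ≤ (1 / 2) ^ n := by
    intro n
    obtain ⟨s, hs⟩ := Infinite.exists_subset_card_eq Γ n
    have hsub : ({x} : Set (Γ → Bool)) ⊆ Set.pi s (fun i => {x i}) := by
      rintro y rfl i _; rfl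
    refine (measure_mono hsub).trans ?_
    unfold nu
    rw [Measure.infinitePi_pi _ (fun i _ => measurableSet_singleton _)]
    simp only [bern_half]
    rw [Finset.prod_const, hs]
  refine le_antisymm ?_ zero_le
  refine ge_of_tendsto' (ENNReal.tendsto_pow_atTop_nhds_zero_of_lt_one ?_) key
  exact ENNReal.half_lt_self one_ne_zero ENNReal.one_ne_top

lemma exists_H {Γ : Type} [Group Γ] [DecidableEq Γ] (hinf : Infinite Γ) (g : Γ) (hg : g ≠ 1)
    (n : ℕ) : ∃ H : Finset Γ, H.card = n ∧ Disjoint H (H.image fun h => g⁻¹ * h) := by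
  induction n with
  | zero => exact ⟨∅, rfl, by simp⟩
  | succ n ih =>
    obtain ⟨H, hc, hd⟩ := ih
    obtain ⟨h, hh⟩ := Infinite.exists_notMem_finset
      (H ∪ (H.image fun h => g⁻¹ * h) ∪ (H.image fun h => g * h))
    simp only [Finset.mem_union, Finset.mem_image, not_or, not_exists, not_and] at hh
    obtain ⟨⟨h1, h2⟩, h3⟩ := hh
    refine ⟨insert h H, by rw [Finset.card_insert_of_notMem h1, hc], ?_⟩
    rw [Finset.disjoint_left] at hd ⊢
    intro a ha hb
    rw [Finset.mem_insert] at ha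
    rw [Finset.mem_image] at hb
    obtain ⟨b, hb, hab⟩ := hb
    rw [Finset.mem_insert] at hb
    rcases ha with rfl | ha
    · rcases hb with rfl | hb
      · exact hg (inv_eq_one.mp (mul_eq_right.mp hab))
      · exact h2 b hb hab
    · rcases hb with rfl | hb
      · exact h3 a ha (by rw [← hab, mul_inv_cancel_left])
      · exact hd ha (Finset.mem_image.mpr ⟨b, hb, hab⟩)

lemma free_bound {Γ : Type} [Group Γ] [DecidableEq Γ] (g : Γ) (H : Finset Γ)
    (hd : Disjoint H (H.image fun h => g⁻¹ * h)) :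
    (nu Γ).real {x | shift g x = x} ≤ (1 / 2) ^ H.card := by
  obtain ⟨E, hE⟩ : ∃ E : Set (Γ → Bool), E = ⋂ h ∈ H, {x | x (g⁻¹ * h) = x h} := ⟨_, rfl⟩
  have hEm : MeasurableSet E := by
    rw [hE]
    exact Finset.measurableSet_biInter _ fun h _ =>
      measurableSet_eq_fun (measurable_pi_apply _) (measurable_pi_apply _)
  have hsub : {x | shift g x = x} ⊆ E := by
    intro x hx
    rw [hE]
    simp only [Set.mem_iInter, Set.mem_ofPred_eq]
    intro h _
    exact congrFun hx h
  have hle : ∀ x : Γ → Bool, Set.indicator E (fun _ => (1 : ℝ)) x ≤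
      ∏ h ∈ H, ((1 + (if x h then (1 : ℝ) else -1) * (if x (g⁻¹ * h) then 1 else -1)) / 2) := by
    intro x
    by_cases hx : x ∈ E
    · rw [Set.indicator_of_mem hx]
      refine le_of_eq (Finset.prod_eq_one fun h hh => ?_).symm
      rw [hE] at hx
      simp only [Set.mem_iInter, Set.mem_ofPred_eq] at hx
      rw [hx h hh]
      split_ifs <;> norm_num
    · rw [Set.indicator_of_notMem hx]
      refine Finset.prod_nonneg fun h _ => ?_
      split_ifs <;> norm_num
  have hexp : ∀ x : Γ → Bool,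
      ∏ h ∈ H, ((1 + (if x h then (1 : ℝ) else -1) * (if x (g⁻¹ * h) then 1 else -1)) / 2) =
      ∑ S ∈ H.powerset, (1 / 2) ^ H.card * (walsh S x * walsh (S.image fun h => g⁻¹ * h) x) := by
    intro x
    rw [Finset.prod_div_distrib, Finset.prod_one_add, Finset.prod_const, Finset.sum_div]
    refine Finset.sum_congr rfl fun S _ => ?_
    rw [Finset.prod_mul_distrib]
    unfold walsh
    rw [Finset.prod_image (fun a _ b _ h => mul_left_cancel h), one_div, inv_pow]
    ring
  have hint : ∀ S : Finset Γ, Integrable (fun x : Γ → Bool => (1 / 2 : ℝ) ^ H.card *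
      (walsh S x * walsh (S.image fun h => g⁻¹ * h) x)) (nu Γ) := by
    intro S
    refine Integrable.const_mul ?_ _
    refine Integrable.of_bound (((walsh_meas S).mul (walsh_meas _)).aestronglyMeasurable) 1
      (Filter.Eventually.of_forall fun x => ?_)
    rw [Real.norm_eq_abs, abs_mul, walsh_abs, walsh_abs, one_mul]
  have hb : ∫ x, (∑ S ∈ H.powerset, (1 / 2 : ℝ) ^ H.card *
      (walsh S x * walsh (S.image fun h => g⁻¹ * h) x)) ∂(nu Γ) = (1 / 2) ^ H.card := by
    rw [integral_finsetSum _ fun S _ => hint S]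
    rw [Finset.sum_eq_single_of_mem ∅ (Finset.empty_mem_powerset H)]
    · rw [integral_const_mul, (t_ORTH Γ _ _).2.2]
      simp
    · intro S hS hne
      rw [integral_const_mul, (t_ORTH Γ _ _).2.2, if_neg, mul_zero]
      intro h
      obtain ⟨a, ha⟩ := Finset.nonempty_iff_ne_empty.mpr hne
      have hSH := Finset.mem_powerset.mp hS
      have h2 : a ∈ S.image fun h => g⁻¹ * h := by rw [← h]; exact ha
      exact Finset.disjoint_left.mp hd (hSH ha) (Finset.image_subset_image hSH h2)
  calc (nu Γ).real {x | shift g x = x} ≤ (nu Γ).real E := measureReal_mono hsub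
    _ = ∫ x, Set.indicator E (fun _ => (1 : ℝ)) x ∂(nu Γ) := by
        rw [integral_indicator hEm]; simp
    _ ≤ ∫ x, (∑ S ∈ H.powerset, (1 / 2 : ℝ) ^ H.card *
          (walsh S x * walsh (S.image fun h => g⁻¹ * h) x)) ∂(nu Γ) := by
        refine integral_mono ?_ (integrable_finsetSum _ fun S _ => hint S) fun x => ?_
        · exact (integrable_const (1 : ℝ)).indicator hEm
        · rw [← hexp x]; exact hle x
    _ = _ := hb

theorem t_SHIFT : P_SHIFT := by
  intro Γ _
  classical
  refine ⟨fun g => ⟨shift_meas g, shift_map g⟩, fun hinf => ⟨nu_point hinf, fun g hg => ?_⟩⟩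
  rw [ae_iff]
  have e : {x : Γ → Bool | ¬ shift g x ≠ x} = {x | shift g x = x} := by
    ext x; simp
  rw [e]
  have key : ∀ n : ℕ, (nu Γ).real {x | shift g x = x} ≤ (1 / 2) ^ n := by
    intro n
    obtain ⟨H, hc, hd⟩ := exists_H hinf g hg n
    rw [← hc]
    exact free_bound g H hd
  have h0 : (nu Γ).real {x | shift g x = x} = 0 := by
    refine le_antisymm ?_ measureReal_nonneg
    exact ge_of_tendsto' (tendsto_pow_atTop_nhds_zero_of_lt_one (by norm_num) (by norm_num)) key
  exact (measureReal_eq_zero_iff).mp h0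

lemma shift_inv {Γ : Type} [Group Γ] (g : Γ) (x : Γ → Bool) : shift g (shift g⁻¹ x) = x := by
  funext h; simp [shift]

lemma shift_inv' {Γ : Type} [Group Γ] (g : Γ) (x : Γ → Bool) : shift g⁻¹ (shift g x) = x := by
  funext h; simp [shift]

lemma image_shift {Γ : Type} [Group Γ] (g : Γ) (B : Set (Γ → Bool)) :
    shift g '' B = shift g⁻¹ ⁻¹' B := by
  ext x
  constructor
  · rintro ⟨y, hy, rfl⟩
    rw [Set.mem_preimage, shift_inv']; exact hy
  · intro hx
    exact ⟨_, hx, shift_inv g x⟩

lemma image_shift2 {Γ : Type} [Group Γ] (g : Γ) (B : Set (Bool × (Γ → Bool))) :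
    shift2 g '' B = shift2 g⁻¹ ⁻¹' B := by
  ext x
  constructor
  · rintro ⟨y, hy, rfl⟩
    rw [Set.mem_preimage]
    have : shift2 g⁻¹ (shift2 g y) = y := by
      unfold shift2; simp only [shift_inv']
    rw [this]; exact hy
  · intro hx
    refine ⟨_, hx, ?_⟩
    unfold shift2; simp only [shift_inv]

lemma shift2_meas {Γ : Type} [Group Γ] (g : Γ) :
    Measurable (shift2 g : Bool × (Γ → Bool) → Bool × (Γ → Bool)) :=
  measurable_fst.prodMk ((shift_meas g).comp measurable_snd)

lemma mt_real {Γ : Type} (t : ℝ) (h0 : 0 ≤ t) (h1 : t ≤ 1) (C : Set (Bool × (Γ → Bool)))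
    (hC : MeasurableSet C) :
    (mt Γ t).real C = t * (nu Γ).real (Prod.mk true ⁻¹' C) +
      (1 - t) * (nu Γ).real (Prod.mk false ⁻¹' C) := by
  have e : mt Γ t C = ENNReal.ofReal t * nu Γ (Prod.mk true ⁻¹' C) +
      ENNReal.ofReal (1 - t) * nu Γ (Prod.mk false ⁻¹' C) := by
    unfold Pool.Agent.Run7.h987.SE.mt
    rw [Measure.prod_apply hC]
    unfold bern
    rw [lintegral_add_measure, lintegral_smul_measure, lintegral_smul_measure, lintegral_dirac,
      lintegral_dirac]
    rfl
  unfold Measure.real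
  rw [e, ENNReal.toReal_add (by finiteness) (by finiteness), ENNReal.toReal_mul,
    ENNReal.toReal_mul, ENNReal.toReal_ofReal h0, ENNReal.toReal_ofReal (by linarith)]

theorem t_MIX : P_SERG → P_MIX := by
  intro hS Γ _ _ hna t ht0 ht1
  obtain ⟨F, C0, hC0, hF⟩ := hS Γ hna
  refine ⟨F, 2 * C0 / t, by positivity, fun B δ hB hδ => ?_⟩
  set p1 := (nu Γ).real (Prod.mk true ⁻¹' B) with hp1
  set p2 := (nu Γ).real (Prod.mk false ⁻¹' B) with hp2
  have m1 : MeasurableSet (Prod.mk true ⁻¹' B : Set (Γ → Bool)) := measurable_prodMk_left hB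
  have m2 : MeasurableSet (Prod.mk false ⁻¹' B : Set (Γ → Bool)) := measurable_prodMk_left hB
  have hsec : ∀ (b : Bool) (γ : Γ), (Prod.mk b ⁻¹' ((shift2 γ '' B) ∆ B) : Set (Γ → Bool)) =
      (shift γ '' (Prod.mk b ⁻¹' B)) ∆ (Prod.mk b ⁻¹' B) := by
    intro b γ
    rw [image_shift2, image_shift]
    rfl
  have hmeas : ∀ γ : Γ, MeasurableSet ((shift2 γ '' B) ∆ B) := by
    intro γ
    rw [image_shift2]
    exact (shift2_meas _ hB).symmDiff hB
  have hd : ∀ γ ∈ F, t * (nu Γ).real ((shift γ '' (Prod.mk true ⁻¹' B)) ∆ (Prod.mk true ⁻¹' B)) +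
      (1 - t) * (nu Γ).real ((shift γ '' (Prod.mk false ⁻¹' B)) ∆ (Prod.mk false ⁻¹' B)) ≤ δ := by
    intro γ hγ
    have := hδ γ hγ
    rw [mt_real t ht0.le (by linarith) _ (hmeas γ), hsec, hsec] at this
    exact this
  have q1 : p1 * (1 - p1) ≤ C0 * (δ / t) := by
    refine hF _ _ m1 fun γ hγ => ?_
    rw [le_div_iff₀ ht0]
    have h1 := hd γ hγ
    have h2 : 0 ≤ (1 - t) * (nu Γ).real ((shift γ '' (Prod.mk false ⁻¹' B)) ∆
      (Prod.mk false ⁻¹' B)) := mul_nonneg (by linarith) measureReal_nonneg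
    linarith
  have q2 : p2 * (1 - p2) ≤ C0 * (δ / t) := by
    refine hF _ _ m2 fun γ hγ => ?_
    rw [le_div_iff₀ ht0]
    have h1 := hd γ hγ
    have h2 : 0 ≤ t * (nu Γ).real ((shift γ '' (Prod.mk true ⁻¹' B)) ∆
      (Prod.mk true ⁻¹' B)) := mul_nonneg ht0.le measureReal_nonneg
    have h3 : 0 ≤ (nu Γ).real ((shift γ '' (Prod.mk false ⁻¹' B)) ∆
      (Prod.mk false ⁻¹' B)) := measureReal_nonneg
    nlinarith
  have p10 : 0 ≤ p1 := measureReal_nonneg
  have p20 : 0 ≤ p2 := measureReal_nonneg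
  have p11 : p1 ≤ 1 := measureReal_le_one
  have p21 : p2 ≤ 1 := measureReal_le_one
  have hCt : 2 * C0 / t * δ = 2 * (C0 * (δ / t)) := by ring
  rw [mt_real t ht0.le (by linarith) B hB, ← hp1, ← hp2, hCt]
  set η := C0 * (δ / t) with hη
  have key : ∀ p : ℝ, 0 ≤ p → p ≤ 1 → p * (1 - p) ≤ η → p ≤ 2 * η ∨ 1 - p ≤ 2 * η := by
    intro p h0 h1 h
    rcases le_total p (1 / 2) with hh | hh
    · left; nlinarith
    · right; nlinarith
  have hη0 : 0 ≤ η := le_trans (mul_nonneg p10 (by linarith)) q1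
  rcases key p1 p10 p11 q1 with a | a <;> rcases key p2 p20 p21 q2 with b | b
  · left; rw [abs_le]; constructor <;> nlinarith
  · right; right; left; rw [abs_le]; constructor <;> nlinarith
  · right; left; rw [abs_le]; constructor <;> nlinarith
  · right; right; right; rw [abs_le]; constructor <;> nlinarith

end Pool.Agent.Run7.h270.SE

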